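import Pool.Agent.H68K.PR.StmZ
import Pool.Agent.H68K.PR.Core
import Pool.Agent.H72P.PR.Sqj
import Pool.Agent.H72P.PR.Odd
import Pool.Agent.H18PR.Tws
import Pool.Agent.H18PR.Cnt
import Pool.Agent.N783.PF.Final

/-!
# The members of the large families: the 2-Selmer group over `F` and over all admissible extensions
(helper14)
-/

set_option autoImplicit false
set_option linter.all false

open Polynomial IsDedekindDomain Matrix NumberField WithZero
open scoped Classical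

namespace Pool.Agent.H14X

open Pool.Agent.N874.PP (Ev Sq1 U0)
open Pool.Agent.N783.PQ (LocIm)
open Pool.Agent.N874.JM (LocF)
open Pool.Agent.N874.PM (PLoc)
open Pool.Agent.N783.PF
open Pool.Agent.N771.PF (rd_eq)
open Pool.Agent.H68K.PR
open Pool.Agent.H14F (Dat CoreJ)

/-- The conditions of `CoreJ` for `x = aeval θ h₀` imply that the corresponding polynomial for the twist is in
the explicit Selmer group over `F`. -/
theorem selH_of (hODD : S_ODD) (hSQJ : S_SQJ) (hTWS : S_TWS) (hCNT : S_CNT)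
    {F L : Type} [Field F] [NumberField F] [Field L] [NumberField L] [Algebra F L]
    {W : ℕ} {f f₁ : (𝓞 F)[X]} {θ : L} {S J : Finset ℕ} {𝔮 : ℕ → Ideal (𝓞 F)}
    {r P : ℕ → (𝓞 F)[X]} (Dt : Dat 1 W f f₁ θ S J 𝔮 r P) (htr : f.coeff 2 = 0)
    (h₀ : F[X]) (b1 : aeval θ h₀ ≠ 0) (b2 : IsSquare (Algebra.norm F (aeval θ h₀)))
    (b3 : ∀ 𝔓 : HeightOneSpectrum (𝓞 L), (∀ q ∈ J, Ov (𝔮 q) 𝔓 → 𝔓.valuation L θ ≠ 1) →
        Ev 𝔓 (aeval θ h₀))
    (b4 : ∀ q ∈ J, ∀ 𝔓 : HeightOneSpectrum (𝓞 L), Ov (𝔮 q) 𝔓 → 𝔓.valuation L θ = 1 →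
        U0 𝔓 ((q : L) * θ) (aeval θ h₀))
    (b5 : ∀ w : HeightOneSpectrum (𝓞 F), (2 : 𝓞 F) ∈ w.asIdeal →
        LocF (w.adicCompletion F) (fF f) h₀)
    (b6 : ∀ σ : F →+* ℝ, LocIm ℝ ((fF f).map σ) (h₀.map σ))
    (p : F[X]) (hp' : aeval (((Dp J : ℕ) : L) * θ) p = aeval θ h₀) :
    SelH ((f.coeff 1 : F) * (Dp J : F) ^ 2) ((f.coeff 0 : F) * (Dp J : F) ^ 3) p := by
  have hc := Dt.gen
  have hsq := Dt.sqf
  have hf₁ := Dt.gf
  have hS := Dt.gs
  have hW := Dt.one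
  have hcon := Dt.con
  have hJS := Dt.sub
  have hqp : ∀ q ∈ S, q.Prime := fun q hq => (hS q hq).1
  -- the twist
  have hD0 : Dp J ≠ 0 := by
    rw [Dp, Finset.prod_ne_zero_iff]
    exact fun q hq => (hqp q (hJS hq)).ne_zero
  have hD8 : Dp J % 8 = 1 := by
    have : ∀ T : Finset ℕ, T ⊆ S → (∏ q ∈ T, q) % 8 = 1 := by
      intro T
      induction T using Finset.induction_on with
      | empty => intro _; rfl
      | insert a T ha ih =>
        intro hT
        rw [Finset.prod_insert ha, Nat.mul_mod, ih fun x hx => hT (Finset.mem_insert_of_mem hx),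
          (hS a (hT (Finset.mem_insert_self _ _))).2.2.2.1]
    exact this J hJS
  have hDm : ∀ w : HeightOneSpectrum (𝓞 F), ((Dp J : ℕ) : 𝓞 F) ∈ w.asIdeal →
      ∃ q ∈ J, (q : 𝓞 F) ∈ w.asIdeal := by
    intro w hw
    rw [Dp, Nat.cast_prod] at hw
    haveI := w.isPrime
    exact (Ideal.IsPrime.prod_mem_iff).1 hw
  have hDm' : ∀ w : HeightOneSpectrum (𝓞 F), ∀ q ∈ J, (q : 𝓞 F) ∈ w.asIdeal →
      ((Dp J : ℕ) : 𝓞 F) ∈ w.asIdeal := by
    intro w q hq hw
    rw [Dp, ← Finset.mul_prod_erase J (fun q => q) hq, Nat.cast_mul]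
    exact w.asIdeal.mul_mem_right _ hw
  have hSQJ' := hSQJ W F L f θ S J 𝔮 r P hc hsq htr hS hcon hJS
  have hODD' := fun w h2 => hODD F L f θ hc hsq htr w h2 (Dp J)
  obtain ⟨D, hDD⟩ : ∃ D : ℕ, D = Dp J := ⟨_, rfl⟩
  rw [← hDD] at hD0 hD8 hDm hDm' hSQJ' hODD' hp' ⊢
  have hD0F : (D : F) ≠ 0 := Nat.cast_ne_zero.2 hD0
  have hm : f.Monic := hc.mon
  have hd : f.natDegree = 3 := hc.deg
  have hirr : Irreducible (fF f) := Pool.Agent.N438.PF.irrF hc
  obtain ⟨A, hA⟩ : ∃ A : F, A = (f.coeff 1 : F) := ⟨_, rfl⟩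
  obtain ⟨B, hB⟩ : ∃ B : F, B = (f.coeff 0 : F) := ⟨_, rfl⟩
  have hfF : fF f = X ^ 3 + C A * X + C B := by
    rw [hA, hB]
    exact fF_cub hm hd htr
  have hfD : fF (f.scaleRoots ((D : ℕ) : 𝓞 F)) =
      X ^ 3 + C (A * (D : F) ^ 2) * X + C (B * (D : F) ^ 3) := by
    rw [hA, hB]
    exact scale_cub hm hd htr D
  have hdisc : 4 * A ^ 3 + 27 * B ^ 2 ≠ 0 := by
    rw [hfF] at hirr
    exact disc_ne hirr
  have hmD : (f.scaleRoots (D : 𝓞 F)).Monic := (monic_scaleRoots_iff (D : 𝓞 F)).2 hm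
  have hirrD : Irreducible (fF (f.scaleRoots (D : 𝓞 F))) := by
    rw [Pool.Agent.N170.PF.fF_scale hm]
    exact Pool.Agent.N170.PF.irr_scale hD0F hirr
  have hirrD' := hirrD
  rw [hfD] at hirrD'
  obtain ⟨Θ, hΘ⟩ : ∃ Θ : L, Θ = (D : L) * θ := ⟨_, rfl⟩
  have hcomp : ∀ h : F[X], aeval θ (h.comp (C (D : F) * X)) = aeval Θ h := by
    intro h
    rw [aeval_comp, map_mul, aeval_C, aeval_X, hΘ, map_natCast]
  have hroot : aeval Θ (fF (f.scaleRoots (D : 𝓞 F))) = 0 := by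
    have e1 := scaleRoots_eval₂_mul (p := fF f) (algebraMap F L) θ (D : F)
    have e2 : eval₂ (algebraMap F L) θ (fF f) = 0 := by
      rw [← aeval_def]
      exact hc.root
    rw [e2, mul_zero, map_natCast] at e1
    rw [Pool.Agent.N170.PF.fF_scale hm, aeval_def, hΘ]
    exact e1
  have hroot' := hroot
  rw [hfD] at hroot'
  haveI : FiniteDimensional F L := Module.finite_of_finrank_pos (by rw [hc.rank]; omega)
  have hmF' : (X ^ 3 + C (A * (D : F) ^ 2) * X + C (B * (D : F) ^ 3) : F[X]).Monic := by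
    rw [← hfD]
    exact hmD.map _
  have hdF' : (X ^ 3 + C (A * (D : F) ^ 2) * X + C (B * (D : F) ^ 3) : F[X]).natDegree =
      Module.finrank F L := by
    rw [← hfD, fF, hmD.natDegree_map, natDegree_scaleRoots, hd, hc.rank]
  obtain ⟨e, he⟩ := ex_equiv hirrD' hmF' hdF' hroot'
  have hdvd : ∀ p : F[X], X ^ 3 + C (A * (D : F) ^ 2) * X + C (B * (D : F) ^ 3) ∣ p ↔
      aeval Θ p = 0 := by
    intro p
    rw [← AdjoinRoot.mk_eq_zero, ← he, map_eq_zero_iff _ e.injective]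
  rw [← hΘ] at hSQJ' hODD'
  have hsqf : ∀ p : F[X], (∃ s : F[X], X ^ 3 + C (A * (D : F) ^ 2) * X + C (B * (D : F) ^ 3) ∣
      p - s ^ 2) ↔ IsSquare (aeval Θ p) := by
    intro p
    constructor
    · rintro ⟨s, hs⟩
      rw [hdvd, map_sub, map_pow, sub_eq_zero] at hs
      exact ⟨aeval Θ s, by rw [hs, sq]⟩
    · rintro ⟨y, hy⟩
      obtain ⟨z, hz⟩ := e.surjective y
      obtain ⟨s, rfl⟩ := AdjoinRoot.mk_surjective z
      rw [he] at hz
      refine ⟨s, ?_⟩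
      rw [hdvd, map_sub, map_pow, sub_eq_zero, hz, hy, sq]
  have hnormeq : ∀ p : F[X], Algebra.norm F
      (AdjoinRoot.mk (X ^ 3 + C (A * (D : F) ^ 2) * X + C (B * (D : F) ^ 3)) p) =
      Algebra.norm F (aeval Θ p) := by
    intro p
    rw [← he, Algebra.norm_eq_of_algEquiv]
  -- to the Selmer group
  have hSel : ∀ h₀ : F[X], aeval θ h₀ ≠ 0 → IsSquare (Algebra.norm F (aeval θ h₀)) →
      (∀ 𝔓 : HeightOneSpectrum (𝓞 L), (∀ q ∈ J, Ov (𝔮 q) 𝔓 → 𝔓.valuation L θ ≠ 1) →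
        Ev 𝔓 (aeval θ h₀)) →
      (∀ q ∈ J, ∀ 𝔓 : HeightOneSpectrum (𝓞 L), Ov (𝔮 q) 𝔓 → 𝔓.valuation L θ = 1 →
        U0 𝔓 ((q : L) * θ) (aeval θ h₀)) →
      (∀ w : HeightOneSpectrum (𝓞 F), (2 : 𝓞 F) ∈ w.asIdeal →
        LocF (w.adicCompletion F) (fF f) h₀) →
      (∀ σ : F →+* ℝ, LocIm ℝ ((fF f).map σ) (h₀.map σ)) →
      ∀ p : F[X], aeval Θ p = aeval θ h₀ →
        SelH (A * (D : F) ^ 2) (B * (D : F) ^ 3) p := by
    intro h₀ b1 b2 b3 b4 b5 b6 p hp
    have hcg1 : X ^ 3 + C A * X + C B ∣ p.comp (C (D : F) * X) - h₀ * 1 ^ 2 := by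
      rw [← hfF]
      refine dvd_of_aeval hc ?_
      rw [map_sub, hcomp, hp, one_pow, mul_one, sub_self]
    refine ⟨?_, ?_, ?_, ?_⟩
    · rw [isCoprime_comm, hirrD'.coprime_iff_not_dvd, hdvd, hp]
      exact b1
    · rw [hnormeq, hp]
      exact b2
    · intro w
      haveI : CharZero (w.adicCompletion F) :=
        charZero_of_injective_algebraMap (algebraMap F (w.adicCompletion F)).injective
      by_cases h2 : (2 : 𝓞 F) ∈ w.asIdeal
      · -- over two
        have h3 := b5 w h2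
        rw [hfF] at h3
        have hW' : (W : 𝓞 F) ∈ w.asIdeal := by
          obtain ⟨k, hk⟩ := hf₁.two
          rw [hk]
          push_cast
          exact Ideal.mul_mem_right _ _ h2
        have h4 : Irreducible (rd w.asIdeal f) := by
          have h5 : Cg w.asIdeal f f₁ := by
            intro j
            have h6 : sp F W ≤ w.asIdeal := by
              rw [sp, Ideal.span_singleton_le_iff_mem]
              exact hW'
            exact h6 (hW j)
          rw [rd_eq h5]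
          exact hf₁.irr _ w.isPrime h2
        have h5 := irr_loc hm hd w h4
        rw [hfF] at h5
        simp only [Polynomial.map_add, Polynomial.map_mul, Polynomial.map_pow, Polynomial.map_X,
          Polynomial.map_C] at h5
        have h6 := hCNT F (w.adicCompletion F) A B h₀ hdisc (Or.inl h5) h3
        have h7 := ploc_congr h6 hcg1
        refine hTWS F (w.adicCompletion F) A B (D : F) p hD0F ?_ h7
        haveI : Fact (Nat.Prime 2) := ⟨Nat.prime_two⟩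
        obtain ⟨δ, hδ⟩ := Pool.Agent.N891.PQ.sq_two D hD8
        obtain ⟨ι, hι, -, -⟩ := Pool.Agent.N498.PQ.cpl F 2 w (by
          change ((2 : ℕ) : 𝓞 F) ∈ w.asIdeal
          exact_mod_cast h2)
        refine ⟨ι δ, ?_⟩
        rw [← map_mul, ← sq, hδ, map_natCast, map_natCast]
      · by_cases hDw : ((D : ℕ) : 𝓞 F) ∈ w.asIdeal
        · obtain ⟨q, hq, hqw⟩ := hDm w hDw
          have h3 := hSQJ' q hq p (by rw [hp]; exact b1) (by rw [hp]; exact b2) ?_ ?_ w hqw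
          · rw [hA, hB]
            exact h3
          · intro 𝔓 hq𝔓 h𝔓
            rw [hp]
            refine b3 𝔓 fun q' hq' ho' => ?_
            have h4 : q = q' := by
              by_contra hne
              have hco : Nat.Coprime q q' :=
                (Nat.coprime_primes (hqp q (hJS hq)) (hqp q' (hJS hq'))).2 hne
              have h3 : IsCoprime (q : ℤ) (q' : ℤ) := Nat.isCoprime_iff_coprime.2 hco
              obtain ⟨a, b, hab⟩ := h3
              apply 𝔓.isPrime.ne_top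
              rw [Ideal.eq_top_iff_one]
              have h4 : (1 : 𝓞 L) = (a : 𝓞 L) * (q : 𝓞 L) + (b : 𝓞 L) * (q' : 𝓞 L) := by
                have := congrArg (fun z : ℤ => (z : 𝓞 L)) hab
                push_cast at this
                exact this.symm
              have h5 : (q' : 𝓞 L) ∈ 𝔓.asIdeal := by
                have h1 := ho' _ (hS q' (hJS hq')).2.2.2.2.2.2.1
                rw [map_natCast] at h1
                exact h1
              rw [h4]
              exact Ideal.add_mem _ (Ideal.mul_mem_left _ _ hq𝔓) (Ideal.mul_mem_left _ _ h5)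
            rw [← h4] at ho'
            exact h𝔓 ho'
          · intro 𝔓 ho hv
            rw [hp]
            exact b4 q hq 𝔓 ho hv
        · have h3 := hODD' w h2 hDw p (by rw [hp]; exact b1) (by rw [hp]; exact b2) ?_
          · rw [hA, hB]
            exact h3
          · intro 𝔓 ho
            rw [hp]
            refine b3 𝔓 fun q hq hoq => ?_
            exfalso
            apply hDw
            refine hDm' w q hq (mem_of_ov ho ?_)
            exact hoq _ (hS q (hJS hq)).2.2.2.2.2.2.1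
    · intro ρ
      letI := ρ.toAlgebra
      have h3 : LocF ℝ (fF f) h₀ := b6 ρ
      rw [hfF] at h3
      have h6 := hCNT F ℝ A B h₀ hdisc (Or.inr ⟨RingEquiv.refl ℝ⟩) h3
      have h7 := ploc_congr h6 hcg1
      refine hTWS F ℝ A B (D : F) p hD0F ?_ h7
      refine ⟨Real.sqrt D, ?_⟩
      rw [map_natCast, Real.mul_self_sqrt (Nat.cast_nonneg D)]
  rw [← hA, ← hB]
  refine hSel h₀ b1 b2 b3 b4 b5 b6 p ?_
  rw [hΘ]
  exact hp'

/-- as `selH_of`, without hypotheses -/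
theorem selH_ofT {F L : Type} [Field F] [NumberField F] [Field L] [NumberField L] [Algebra F L]
    {W : ℕ} {f f₁ : (𝓞 F)[X]} {θ : L} {S J : Finset ℕ} {𝔮 : ℕ → Ideal (𝓞 F)}
    {r P : ℕ → (𝓞 F)[X]} (Dt : Dat 1 W f f₁ θ S J 𝔮 r P) (htr : f.coeff 2 = 0)
    (h₀ : F[X]) (b1 : aeval θ h₀ ≠ 0) (b2 : IsSquare (Algebra.norm F (aeval θ h₀)))
    (b3 : ∀ 𝔓 : HeightOneSpectrum (𝓞 L), (∀ q ∈ J, Ov (𝔮 q) 𝔓 → 𝔓.valuation L θ ≠ 1) →
        Ev 𝔓 (aeval θ h₀))
    (b4 : ∀ q ∈ J, ∀ 𝔓 : HeightOneSpectrum (𝓞 L), Ov (𝔮 q) 𝔓 → 𝔓.valuation L θ = 1 →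
        U0 𝔓 ((q : L) * θ) (aeval θ h₀))
    (b5 : ∀ w : HeightOneSpectrum (𝓞 F), (2 : 𝓞 F) ∈ w.asIdeal →
        LocF (w.adicCompletion F) (fF f) h₀)
    (b6 : ∀ σ : F →+* ℝ, LocIm ℝ ((fF f).map σ) (h₀.map σ))
    (p : F[X]) (hp' : aeval (((Dp J : ℕ) : L) * θ) p = aeval θ h₀) :
    SelH ((f.coeff 1 : F) * (Dp J : F) ^ 2) ((f.coeff 0 : F) * (Dp J : F) ^ 3) p :=
  selH_of Pool.Agent.H72P.PR.odd Pool.Agent.H72P.PR.sqj Pool.Agent.H18PR.tws
    Pool.Agent.H18PR.cnt Dt htr h₀ b1 b2 b3 b4 b5 b6 p hp'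

end Pool.Agent.H14X
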